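import Pool.Agent.J4H9.BF.Stm2

/-! # Project BF: the inequality for several blocks (SMF) -/

set_option autoImplicit false

namespace Pool.Agent.J4H66.BF

open Pool.Agent.J4H9.BF (S_SMF)

/-- signs can be chosen at all the pairs but one in each block -/
theorem signs {G X I : Type} [Group G] [MulAction G X] {bar : X → X} {β : X → I}
    (hbb : ∀ x, bar (bar x) = x) (hcomm : ∀ (s : G) (x : X), bar (s • x) = s • bar x)
    (hβ : ∀ x, β (bar x) = β x)
    (hD : ∀ x y : X, β x = β y → y ≠ x → y ≠ bar x → ∃ ν : G, ν • x = bar x ∧ ν • y = bar y ∧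
      ∀ z, z ≠ x → z ≠ bar x → z ≠ y → z ≠ bar y → ν • z = z)
    (w : X → ℝ) (hw : ∀ x, w (bar x) = - w x) (c : I → X) (hc : ∀ y, β (c (β y)) = β y)
    (T : Finset X) (hT : ∀ y ∈ T, bar y ∉ T) :
    ∃ ν : G, (∀ y, ν • y = y ∨ ν • y = bar y) ∧
      ∀ y ∈ T, y ≠ c (β y) → y ≠ bar (c (β y)) → 0 ≤ w (ν • y) := by
  classical
  induction T using Finset.induction_on with
  | empty => exact ⟨1, fun y => Or.inl (one_smul G y), by simp⟩
  | insert y T hy ih =>
    obtain ⟨ν, h1, h2⟩ := ih fun z hz hz' =>
      hT z (Finset.mem_insert_of_mem hz) (Finset.mem_insert_of_mem hz')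
    by_cases hgood : y ≠ c (β y) → y ≠ bar (c (β y)) → 0 ≤ w (ν • y)
    · refine ⟨ν, h1, fun z hz => ?_⟩
      rcases Finset.mem_insert.1 hz with h | h
      · subst h
        exact hgood
      · exact h2 z h
    · push Not at hgood
      obtain ⟨hy0, hy1, hneg⟩ := hgood
      obtain ⟨δ, d1, d2, d3⟩ := hD (c (β y)) y (hc y) hy0 hy1
      have hbar : ∀ z, (δ • z = z ∨ δ • z = bar z) := by
        intro z
        by_cases e1 : z = c (β y)
        · right
          rw [e1, d1]
        by_cases e2 : z = bar (c (β y))
        · right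
          rw [e2, ← hcomm, d1]
        by_cases e3 : z = y
        · right
          rw [e3, d2]
        by_cases e4 : z = bar y
        · right
          rw [e4, ← hcomm, d2]
        · left
          exact d3 z e1 e2 e3 e4
      refine ⟨ν * δ, fun z => ?_, fun z hz hz0 hz1 => ?_⟩
      · rw [mul_smul]
        rcases hbar z with h | h
        · rw [h]
          exact h1 z
        · rw [h, ← hcomm]
          rcases h1 z with h' | h'
          · right
            rw [h']
          · left
            rw [h', hbb]
      · rcases Finset.mem_insert.1 hz with h | h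
        · subst h
          rw [mul_smul, d2, ← hcomm, hw]
          linarith
        · have hz0' : z ≠ c (β y) := by
            intro e
            have e' : β z = β y := by rw [e, hc]
            apply hz0
            rw [e', ← e]
          have hz1' : z ≠ bar (c (β y)) := by
            intro e
            have e' : β z = β y := by rw [e, hβ, hc]
            apply hz1
            rw [e', ← e]
          rw [mul_smul, d3 z hz0' hz1']
          · exact h2 z h hz0 hz1
          · rintro rfl
            exact hy h
          · rintro rfl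
            exact hT y (Finset.mem_insert_self _ _) (Finset.mem_insert_of_mem h)

theorem t_SMF : S_SMF := by
  intro G X I _ _ _ bar β g hbb hne hcomm hβ hcard hg hD w hw n x hx B hB
  classical
  haveI : Fintype X := Fintype.ofFinite X
  have hg0 : (0 : ℝ) < g := by
    have : 0 < g := by omega
    exact_mod_cast this
  rcases isEmpty_or_nonempty X with hX | hX
  · have hn : ∀ k : Fin n, False := fun k => hX.elim (x k)
    haveI : IsEmpty (Fin n) := ⟨hn⟩
    have h1 := hB 1
    simp only [Finset.univ_eq_empty, Finset.sum_empty] at h1 ⊢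
    rw [mul_zero]
    exact mul_nonneg hg0.le h1
  -- the contribution of a pair
  set ct : X → ℝ := fun y => ∑ k, (if x k = y ∨ x k = bar y then |w (x k)| else 0) with hct
  set S : I → ℝ := fun b => ∑ k, (if β (x k) = b then |w (x k)| else 0) with hSdef
  have hcount : ∀ k, ∀ b : I, ∑ y ∈ Finset.univ.filter (fun y : X => β y = b),
      (if x k = y ∨ x k = bar y then |w (x k)| else 0) =
      2 * (if β (x k) = b then |w (x k)| else 0) := by
    intro k b
    rw [← Finset.sum_filter]
    by_cases hb : β (x k) = b
    · have h6 : ((Finset.univ.filter (fun y : X => β y = b)).filter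
          fun y : X => x k = y ∨ x k = bar y) = {x k, bar (x k)} := by
        ext z
        simp only [Finset.mem_filter, Finset.mem_univ, true_and, Finset.mem_insert,
          Finset.mem_singleton]
        constructor
        · rintro ⟨_, h | h⟩
          · exact Or.inl h.symm
          · right
            rw [h, hbb]
        · rintro (h | h)
          · exact ⟨by rw [h, hb], Or.inl h.symm⟩
          · refine ⟨by rw [h, hβ, hb], Or.inr ?_⟩
            rw [h, hbb]
      rw [h6, Finset.sum_pair (hne _).symm, if_pos hb]
      ring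
    · have h6 : ((Finset.univ.filter (fun y : X => β y = b)).filter
          fun y : X => x k = y ∨ x k = bar y) = ∅ := by
        ext z
        simp only [Finset.mem_filter, Finset.mem_univ, true_and, Finset.notMem_empty, iff_false]
        rintro ⟨h0, h | h⟩
        · apply hb
          rw [h, h0]
        · apply hb
          rw [h, hβ, h0]
      rw [h6, if_neg hb]
      simp
  have hblock : ∀ b : I, ∑ y ∈ Finset.univ.filter (fun y : X => β y = b), ct y = 2 * S b := by
    intro b
    rw [hct, hSdef]
    simp only
    rw [Finset.sum_comm, Finset.mul_sum]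
    exact Finset.sum_congr rfl fun k _ => hcount k b
  have hcd : ∀ y : X, ((Finset.univ.filter (fun z : X => β z = β y)).card : ℝ) = 2 * g := by
    intro y
    have h := hcard y
    rw [Nat.card_eq_fintype_card, Fintype.card_subtype] at h
    rw [h]
    push_cast
    ring
  have hmin : ∀ b : I, ∃ y : X, (∃ z, β z = b) → β y = b ∧ g * ct y ≤ S b := by
    intro b
    by_cases hb : ∃ z, β z = b
    · obtain ⟨z, rfl⟩ := hb
      by_contra hcon
      push Not at hcon
      have h1 : ∀ y ∈ Finset.univ.filter (fun y : X => β y = β z), S (β z) / g < ct y := by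
        intro y hy
        have hy' := (Finset.mem_filter.1 hy).2
        rw [div_lt_iff₀ hg0, mul_comm]
        exact (hcon y).2 hy'
      have hne' : (Finset.univ.filter (fun y : X => β y = β z)).Nonempty :=
        ⟨z, Finset.mem_filter.2 ⟨Finset.mem_univ _, rfl⟩⟩
      have h2 := Finset.sum_lt_sum_of_nonempty hne' h1
      rw [hblock, Finset.sum_const, nsmul_eq_mul, hcd] at h2
      have h3 : 2 * (g : ℝ) * (S (β z) / g) = 2 * S (β z) := by
        field_simp
      rw [h3] at h2
      exact lt_irrefl _ h2
    · exact ⟨Classical.arbitrary X, fun h => absurd h hb⟩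
  choose c hc using hmin
  have hc1 : ∀ y, β (c (β y)) = β y := fun y => (hc (β y) ⟨y, rfl⟩).1
  have hc2 : ∀ y, g * ct (c (β y)) ≤ S (β y) := fun y => (hc (β y) ⟨y, rfl⟩).2
  obtain ⟨ν, h1, h2⟩ := signs hbb hcomm hβ hD w hw c hc1 (Finset.univ.image x) (by
    intro y hy hy'
    rw [Finset.mem_image] at hy hy'
    obtain ⟨k, _, rfl⟩ := hy
    obtain ⟨l, _, hl⟩ := hy'
    exact hx l k hl)
  have key : ∑ k, |w (x k)| - 2 * ∑ k, (if x k = c (β (x k)) ∨ x k = bar (c (β (x k))) then
      |w (x k)| else 0) ≤ B := by
    refine le_trans ?_ (hB ν)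
    rw [Finset.mul_sum, ← Finset.sum_sub_distrib]
    refine Finset.sum_le_sum fun k _ => ?_
    have h3 : |w (ν • x k)| = |w (x k)| := by
      rcases h1 (x k) with h | h
      · rw [h]
      · rw [h, hw, abs_neg]
    by_cases h4 : x k = c (β (x k)) ∨ x k = bar (c (β (x k)))
    · rw [if_pos h4]
      have := neg_abs_le (w (ν • x k))
      rw [h3] at this
      linarith
    · rw [if_neg h4]
      push Not at h4
      have h5 := h2 (x k) (Finset.mem_image_of_mem x (Finset.mem_univ k)) h4.1 h4.2
      rw [← h3, abs_of_nonneg h5]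
      linarith
  -- the sum over the blocks
  set Bl : Finset I := (Finset.univ : Finset (Fin n)).image fun k => β (x k) with hBl
  have e1 : ∑ k, (if x k = c (β (x k)) ∨ x k = bar (c (β (x k))) then |w (x k)| else 0) ≤
      ∑ b ∈ Bl, ct (c b) := by
    have e2 : ∑ k, (if x k = c (β (x k)) ∨ x k = bar (c (β (x k))) then |w (x k)| else 0) =
        ∑ b ∈ Bl, ∑ k ∈ Finset.univ.filter (fun k => β (x k) = b),
          (if x k = c (β (x k)) ∨ x k = bar (c (β (x k))) then |w (x k)| else 0) := by
      refine (Finset.sum_fiberwise_of_maps_to (g := fun k => β (x k)) (fun k _ => ?_) _).symm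
      exact Finset.mem_image_of_mem _ (Finset.mem_univ k)
    rw [e2]
    refine Finset.sum_le_sum fun b _ => ?_
    have e3 : ∑ k ∈ Finset.univ.filter (fun k => β (x k) = b),
          (if x k = c (β (x k)) ∨ x k = bar (c (β (x k))) then |w (x k)| else 0) =
        ∑ k ∈ Finset.univ.filter (fun k => β (x k) = b),
          (if x k = c b ∨ x k = bar (c b) then |w (x k)| else 0) := by
      refine Finset.sum_congr rfl fun k hk => ?_
      rw [(Finset.mem_filter.1 hk).2]
    rw [e3, hct]
    refine Finset.sum_le_sum_of_subset_of_nonneg (Finset.filter_subset _ _) fun k _ _ => ?_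
    split_ifs
    · exact abs_nonneg _
    · exact le_rfl
  have e4 : ∑ b ∈ Bl, S b = ∑ k, |w (x k)| := by
    rw [hSdef]
    simp only
    rw [Finset.sum_comm]
    refine Finset.sum_congr rfl fun k _ => ?_
    rw [Finset.sum_ite_eq, if_pos (Finset.mem_image_of_mem _ (Finset.mem_univ k))]
  have e5 : g * ∑ b ∈ Bl, ct (c b) ≤ ∑ b ∈ Bl, S b := by
    rw [Finset.mul_sum]
    refine Finset.sum_le_sum fun b hb => ?_
    obtain ⟨k, _, rfl⟩ := Finset.mem_image.1 hb
    exact hc2 (x k)
  rw [e4] at e5
  have e6 : g * (∑ k, |w (x k)| - 2 * ∑ b ∈ Bl, ct (c b)) ≤ g * B := by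
    refine mul_le_mul_of_nonneg_left ?_ hg0.le
    linarith
  linarith

end Pool.Agent.J4H66.BF
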